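import Pool.Agent.H148G.Ex

/-!
# Integral points of schemes over a split semiabelian variety lie over few subvarieties

`K` is a number field with an embedding `σ` in `ℂ`, `A = E_1 × … × E_r × G_m^s` is a split
semiabelian variety, the `E_i` being elliptic curves `y² = x³ + a_i x` or `y² = x³ + b_i`
(`a_i, b_i ∈ ℤ`), and `U ⊂ A × 𝔸ⁿ` is an arbitrary closed subscheme, given by equations
`G_j(P, u; x) = 0` over `𝓞 K`, multihomogeneous in the coordinates of the plane cubics `E_i`. Let
`e` be the largest dimension of the fibres `U_(P, u) ⊂ 𝔸ⁿ`, `(P, u) ∈ A(ℂ)`.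

Theorem. There is a number `D` such that for every finite extension `L` of `K` and every finite set
`S` of primes of `L` there are `τ < 1` and `C` such that for all `B ≥ 1` the points
`x ∈ (𝓞_(L, S))ⁿ` of height at most `B` over which `U` has an `S`-integral point `(P, u, x)` lie on
at most `exp(C (1 + log B)^τ)` closed subsets of `𝔸ⁿ`, each of dimension at most `e` and given by
equations of degree at most `D`. In particular at most `|T|^e exp(C (1 + log B)^τ)` of these `x`
lie in the grid `T ^ n`, for every finite set `T ⊂ L`. Here `P` is any point of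
`E_1(L) × … × E_r(L)` and the coordinates of `u` are any `S`-units; the groups of these are infinite
in general, of unbounded rank for varying `L` and `S`, and there is no bound on the height of
`(P, u)`. The number `D` does not depend on `L` and `S`.

So if the image of `U` in `𝔸ⁿ` has dimension greater than `e`, then all the `S`-integral points of
`U` over the `x` of height at most `B` lie on `exp(C (1 + log B)^τ)` proper closed subschemes of `U`
of bounded degree. If all subvarieties of `U` are of log-general type, the conjecture of Lang and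
Vojta predicts that there are finitely many `S`-integral points in all.

Part 2 is an explicit class in every dimension and codimension: the schemes
`U : f_l0(P, u) + ∑_i f_li(P, u) x_i ^ m = 0` (`l = 1, …, h`), `(f_li)` any matrix of polynomials,
the `l`-th row of multidegree `d_l` in the coordinates of the `E_i`, of rank `h` at all points of
`A(ℂ)`. Here `e = n - h`.

The extreme cases `e = 0` (finite fibres) and `e = n - 1` (hypersurfaces which contain no fibre) were
known, for the `x` up to `S`-units (starting hand-in `MP_e97a4d_nt/IntegralPointsOverSemiabelian`,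
engine `Pool/Agent/W659/SA`).

Method: sieve by the reductions of the points of `A` at primes `p` with smooth `p² - 1`: for the
points of one class of `A(𝓞_(L, S))` modulo a suitable number the fibres have the same reduction, so
that the homogeneous monomials of degree `D` in `1` and any `e + 1` of the coordinates of the `x`
are linearly dependent modulo many primes, hence over `L`; an ultraproduct gives the uniform
equations of the fibres modulo all large primes.
-/

set_option autoImplicit false

namespace Pool.Agent.Results.MP_26d9ad_nt.FewSubvarietiesOverSemiabelian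

open MvPolynomial NumberField IsDedekindDomain Pool.Agent.W659 Pool.Agent.W659.SA
open Pool.Agent.H148G
open Pool.Agent.H148N (aff)

open scoped LinearAlgebra.Projectivization

theorem result :
    -- Part 1: arbitrary closed subschemes of `E_1 × … × E_r × G_m^s × 𝔸ⁿ`
    (∀ (K : Type) [Field K] [NumberField K] (σ : K →+* ℂ) (r s n q : ℕ) (a b : Fin r → ℤ),
      (∀ i, a i * b i = 0 ∧ (a i ≠ 0 ∨ b i ≠ 0)) → ∀ (G : Fin q → Pol (𝓞 K) r s n)
      (d : Fin q → Fin r → ℕ), (∀ j, MHomog (G j) (d j)) → ∀ e : ℕ,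
      (∀ (V : Fin r → Fin 3 → ℂ) (u : Fin s → ℂ), (∀ i, FD.OnE (a i) (b i) (V i)) →
        (∀ l, u l ≠ 0) → DimLE e {x : Fin n → ℂ | ∀ j, vl (toC σ) (G j) V u x = 0}) →
      ∃ D : ℕ, ∀ (L : Type) [Field L] [NumberField L] [Algebra K L]
        (S : Set (HeightOneSpectrum (𝓞 L))), S.Finite →
        ∃ τ C : ℝ, 0 < τ ∧ τ < 1 ∧ ∀ B : ℝ, 1 ≤ B →
          (∃ 𝒵 : Finset (Set (Fin n → L)),
            (𝒵.card : ℝ) ≤ Real.exp (C * (1 + Real.log B) ^ τ) ∧ (∀ Z ∈ 𝒵, DimDegLE e D Z) ∧
            ∀ x ∈ Below S a b G, (aff x).mulHeight ≤ B → ∃ Z ∈ 𝒵, x ∈ Z) ∧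
          ∀ T : Finset L, T.Nonempty →
            ({x : Fin n → L | x ∈ Below S a b G ∧ (aff x).mulHeight ≤ B ∧
              ∀ i, x i ∈ T}.ncard : ℝ) ≤
              (T.card : ℝ) ^ e * Real.exp (C * (1 + Real.log B) ^ τ)) ∧
    -- Part 2: an explicit class in every dimension and codimension
    (∀ (K : Type) [Field K] [NumberField K] (σ : K →+* ℂ) (r s n h m : ℕ), 1 ≤ h → h ≤ n →
      1 ≤ m → ∀ (a b : Fin r → ℤ), (∀ i, a i * b i = 0 ∧ (a i ≠ 0 ∨ b i ≠ 0)) →
      ∀ (f : Fin h → Fin (n + 1) → MvPolynomial ((Fin r × Fin 3) ⊕ Fin s) (𝓞 K))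
      (d : Fin h → Fin r → ℕ), (∀ l i, IsForm (f l i) (d l)) →
      (∀ (V : Fin r → Fin 3 → ℂ) (u : Fin s → ℂ), (∀ i, FD.OnE (a i) (b i) (V i)) →
        (∀ l, u l ≠ 0) → LinearIndependent ℂ (fun (l : Fin h) (i : Fin (n + 1)) =>
          eval₂ (toC σ) (Sum.elim (fun ij : Fin r × Fin 3 => V ij.1 ij.2) u) (f l i))) →
      ∃ D : ℕ, ∀ (L : Type) [Field L] [NumberField L] [Algebra K L]
        (S : Set (HeightOneSpectrum (𝓞 L))), S.Finite →
        ∃ τ C : ℝ, 0 < τ ∧ τ < 1 ∧ ∀ B : ℝ, 1 ≤ B →
          ∃ 𝒵 : Finset (Set (Fin n → L)),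
            (𝒵.card : ℝ) ≤ Real.exp (C * (1 + Real.log B) ^ τ) ∧
            (∀ Z ∈ 𝒵, DimDegLE (n - h) D Z) ∧
            ∀ x : Fin n → L, (∀ i, x i ∈ S.integer L) → (aff x).mulHeight ≤ B →
              ∀ (V : Fin r → Fin 3 → L) (u : Fin s → Lˣ), (∀ i, FD.OnE (a i) (b i) (V i)) →
                (∀ l, u l ∈ S.unit L) →
                (∀ l, eval₂ ((algebraMap K L).comp (algebraMap (𝓞 K) K))
                    (Sum.elim (fun ij : Fin r × Fin 3 => V ij.1 ij.2)
                      (fun l => ((u l : Lˣ) : L))) (f l 0) +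
                  ∑ i : Fin n, eval₂ ((algebraMap K L).comp (algebraMap (𝓞 K) K))
                    (Sum.elim (fun ij : Fin r × Fin 3 => V ij.1 ij.2)
                      (fun l => ((u l : Lˣ) : L))) (f l i.succ) * x i ^ m = 0) →
                ∃ Z ∈ 𝒵, x ∈ Z) := by
  refine ⟨fun K _ _ σ r s n q a b hab G d hG e hfib =>
    main_int K σ r s n q a b hab G d hG e hfib, ?_⟩
  intro K _ _ σ r s n h m hh hhn hm a b hab f d hf hrk
  obtain ⟨D, hD⟩ := main_int K σ r s n h a b hab (fun l => diag m (f l)) d
    (fun l => diag_homog m (f l) (d l) (hf l)) (n - h)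
    (fun V u hV hu => diag_fib σ hh hhn m hm f V u (hrk V u hV hu))
  refine ⟨D, fun L _ _ _ S hS => ?_⟩
  obtain ⟨τ, C, h0, h1, hC⟩ := hD L S hS
  refine ⟨τ, C, h0, h1, fun B hB => ?_⟩
  obtain ⟨⟨𝒵, h2, h3, h4⟩, -⟩ := hC B hB
  refine ⟨𝒵, h2, h3, fun x hx hxB V u hV hu hsol => h4 x ⟨hx, V, u, hV, hu, fun l => ?_⟩ hxB⟩
  rw [vl_diag]
  exact hsol l

end Pool.Agent.Results.MP_26d9ad_nt.FewSubvarietiesOverSemiabelian
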