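import Mathlib
import Pool.Agent.Helper201_HF.Aff3

set_option autoImplicit false

/-!
# Integral points that are sums of elements of a group of finite rank: one constant for all affine
# varieties of bounded degree

Fix the dimension `n`, a bound `d` for the degrees, a natural number `r` and a finitely generated group
`Γ` of nonzero algebraic numbers (for instance the `S`-units of a number field). There is ONE constant
`C`, depending only on `n`, `d`, `r` and `Γ`, such that the following holds for ALL affine varieties `U`
in affine `n`-space over the algebraic numbers that are given by polynomials of degree at most `d` and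
height at most `H`. We consider the points

  `x = u_1 V_1 + … + u_r V_r`  of `U`,

where the `u_j` are algebraic numbers with a power in `Γ` and the `V_j` are ARBITRARY vectors of
algebraic numbers (for instance, `S`-integral points which are sums of vectors multiplied by
`S`-units).

* If there is no nonconstant map `t ↦ ∑ t ^ (l j) c_j`, `l j ∈ ℤ`, with `r` terms from the punctured
  line to `U` through `x`, then `x` is equal to a partial sum `∑_{j ∈ J} u_j V_j` with
  `h(1 : (u_j)_{j ∈ J}) ≤ C (1 + h(1 : V) + H)`, and `h(1 : x) ≤ C (1 + h(1 : V) + H)`.
* So if `U` contains no image of a nonconstant map from the punctured line (for instance, if all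
  subvarieties of `U` of positive dimension are of log-general type, as in Q1), then this holds for all
  algebraic points `x` of `U` of this form; those with `2 C h(1 : V) ≤ h(1 : x) + B` have height
  `h(1 : x) ≤ 2 C (1 + H) + B`, and for every number field `K` only finitely many of them are in
  `U(K)`, with the same `C` for all these `U`.

The proof extends the theorem on germs of the library folder `Y215/SK` of the starting repository (a
consequence of a subspace theorem with moving coefficients) to equations with moving coefficients
(`Helper201_HF/CoreT`), homogenises, and bounds the number of equations by linear algebra.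
-/

namespace Pool.Agent.Results.MP_26d9ad_nt.UniformFiniteRankSums

open MvPolynomial hiding psum
open NumberField Pool.Agent.Helper259.AbsHt Pool.Agent.Y215.SK Pool.Agent.Helper201_HF

theorem result (n d r : ℕ) (Γ : Subgroup Qbarˣ) (hΓ : Γ.FG) :
    ∃ C : ℝ, 0 < C ∧ ∀ (FF : Set (MvPolynomial (Fin n) Qbar)) (H : ℝ), 0 ≤ H →
      (∀ f ∈ FF, f.totalDegree ≤ d ∧ polyHeight f ≤ H) →
      (∀ (u : Fin r → Qbarˣ) (V : Fin r → Fin n → Qbar) (x : Fin n → Qbar),
        (∀ j, u j ∈ DivHull Γ) → (∀ a, x a = ∑ j, (u j : Qbar) * V j a) →
        (∀ f ∈ FF, aeval x f = 0) → NoLineThrough r FF x → AffBound C H u V x) ∧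
      (NoPuncturedLines FF →
        (∀ (u : Fin r → Qbarˣ) (V : Fin r → Fin n → Qbar) (x : Fin n → Qbar),
          (∀ j, u j ∈ DivHull Γ) → (∀ a, x a = ∑ j, (u j : Qbar) * V j a) →
          (∀ f ∈ FF, aeval x f = 0) → AffBound C H u V x) ∧
        ∀ B : ℝ, (∀ x : Fin n → Qbar, CompressibleAff FF Γ r C B x →
            hAff x ≤ 2 * C * (1 + H) + B) ∧
          ∀ (K : Type) [Field K] [NumberField K] (φ : K →+* Qbar),
            {y : Fin n → K | CompressibleAff FF Γ r C B (fun a => φ (y a))}.Finite) :=
  mainAff n d r Γ hΓ

end Pool.Agent.Results.MP_26d9ad_nt.UniformFiniteRankSums
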